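import Mathlib

set_option autoImplicit false

namespace Pool.Agent.H140Z.DS

/-- `B` is a simple `t-(v,k,lam)` design on the point set `V`: a set of `k`-subsets such that every
`t`-subset of `V` lies in exactly `lam` of them. -/
def IsDesign (t k lam : ℕ) {V : Type} [DecidableEq V] (B : Finset (Finset V)) : Prop :=
  (∀ b ∈ B, b.card = k) ∧ ∀ T : Finset V, T.card = t → (B.filter (fun b => T ⊆ b)).card = lam

/-- `S` is a defining set of `B`: a set of blocks of `B` contained in no other design with the same
parameters on the same point set. -/
def IsDefining (t k lam : ℕ) {V : Type} [DecidableEq V] (B S : Finset (Finset V)) : Prop :=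
  S ⊆ B ∧ ∀ B' : Finset (Finset V), IsDesign t k lam B' → S ⊆ B' → B' = B

/-- `S` is a minimal defining set of `B`: no proper subset of it is a defining set. -/
def IsMinDefining (t k lam : ℕ) {V : Type} [DecidableEq V] (B S : Finset (Finset V)) : Prop :=
  IsDefining t k lam B S ∧ ∀ S' : Finset (Finset V), S' ⊂ S → ¬ IsDefining t k lam B S'

/-- The spectrum of `B`: the set of the sizes of its minimal defining sets. -/
def Spec (t k lam : ℕ) {V : Type} [DecidableEq V] (B : Finset (Finset V)) : Set ℕ :=
  {n | ∃ S : Finset (Finset V), IsMinDefining t k lam B S ∧ S.card = n}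

end Pool.Agent.H140Z.DS
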