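import Pool.Agent.H140Z.DS.Sound
import Pool.Agent.H140Z.DS.Defs

set_option autoImplicit false

namespace Pool.Agent.H140Z.DS

open Finset

theorem tr_card : ∀ t < 35, (tr t).card = 3 := by decide +kernel

theorem tr_inj : ∀ t < 35, ∀ s < 35, tr t = tr s → t = s := by decide +kernel

theorem tr_surj : ∀ b : Finset (Fin 7), b.card = 3 → ∃ t < 35, tr t = b := by decide +kernel

theorem five : ∀ T : Finset (Fin 7), T.card = 2 →
    ((range 35).filter (fun t => T ⊆ tr t)).card = 5 := by decide +kernel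

theorem inc_fact : ∀ L ∈ inc, ∃ T : Finset (Fin 7), T.card = 2 ∧ ∀ t < 35, T ⊆ tr t → t ∈ L := by
  decide +kernel

theorem cf_fact : ∀ t < 35, ∀ s < 35, (cf t).testBit s = true →
    t ≠ s ∧ (tr t ∩ tr s).card = 2 := by decide +kernel

theorem max_fact : ∀ m ∈ m0 :: EM, ∀ t < 35,
    m.testBit t = true ∨ ∃ s < 35, m.testBit s = true ∧ (cf t).testBit s = true := by
  decide +kernel

theorem des_fact : ∀ m ∈ m0 :: EM, ∀ T : Finset (Fin 7), T.card = 2 →
    ((range 35).filter (fun t => T ⊆ tr t ∧ m.testBit t = false)).card = 4 := by decide +kernel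

theorem ne_fact : ∀ j < 29, ∃ t < 35, m0.testBit t = true ∧ (ed j).testBit t = false := by
  decide +kernel

theorem EM_fact : ∀ m ∈ EM, ∃ j < 29, ed j = m := by decide +kernel

theorem ed_mem : ∀ j < 29, ed j ∈ m0 :: EM := by decide +kernel

/-- the block set with index set `A` -/
def blk (A : Finset ℕ) : Finset (Finset (Fin 7)) := A.image tr

def ind (B : Finset (Finset (Fin 7))) : Finset ℕ := (range 35).filter (fun t => tr t ∈ B)

def des (m : ℕ) : Finset (Finset (Fin 7)) :=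
  blk ((range 35).filter (fun t => m.testBit t = false))

theorem card_blk (A : Finset ℕ) (hA : ∀ t ∈ A, t < 35) : (blk A).card = A.card :=
  card_image_of_injOn (fun t ht s hs h => tr_inj t (hA t ht) s (hA s hs) h)

theorem mem_blk (A : Finset ℕ) (hA : ∀ t ∈ A, t < 35) (t : ℕ) (ht : t < 35) :
    tr t ∈ blk A ↔ t ∈ A := by
  simp only [blk, mem_image]
  constructor
  · rintro ⟨s, hs, h⟩
    exact tr_inj s (hA s hs) t ht h ▸ hs
  · exact fun h => ⟨t, h, rfl⟩

theorem ind_lt (B : Finset (Finset (Fin 7))) : ∀ t ∈ ind B, t < 35 := by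
  intro t ht
  simpa using (mem_filter.1 ht).1

theorem blk_ind (B : Finset (Finset (Fin 7))) (hB : ∀ b ∈ B, b.card = 3) : blk (ind B) = B := by
  ext b
  simp only [blk, ind, mem_image, mem_filter, mem_range]
  constructor
  · rintro ⟨t, ⟨_, h⟩, rfl⟩
    exact h
  · intro h
    obtain ⟨t, ht, rfl⟩ := tr_surj b (hB b h)
    exact ⟨t, ⟨ht, h⟩, rfl⟩

theorem mem_des (m t : ℕ) (ht : t < 35) : tr t ∈ des m ↔ m.testBit t = false := by
  rw [des, mem_blk _ (fun s hs => by simpa using (mem_filter.1 hs).1) t ht]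
  simp [ht]

theorem des_card (m : ℕ) : ∀ b ∈ des m, b.card = 3 := by
  intro b hb
  simp only [des, blk, mem_image, mem_filter, mem_range] at hb
  obtain ⟨t, ⟨ht, _⟩, rfl⟩ := hb
  exact tr_card t ht

theorem filter_card (B : Finset (Finset (Fin 7))) (hB : ∀ b ∈ B, b.card = 3)
    (T : Finset (Fin 7)) : (B.filter (fun b => T ⊆ b)).card =
      ((range 35).filter (fun t => T ⊆ tr t ∧ tr t ∈ B)).card := by
  rw [← blk_ind (B.filter (fun b => T ⊆ b)) (fun b hb => hB b (mem_filter.1 hb).1),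
    card_blk _ (ind_lt _)]
  congr 1
  ext t
  simp only [ind, mem_filter, mem_range]
  tauto

theorem des_design (m : ℕ) (hm : m ∈ m0 :: EM) : IsDesign 2 3 4 (des m) := by
  refine ⟨des_card m, fun T hT => ?_⟩
  rw [filter_card _ (des_card m), ← des_fact m hm T hT]
  congr 1
  apply filter_congr
  intro t ht
  rw [mem_des m t (by simpa using ht)]

theorem one_out (B : Finset (Finset (Fin 7))) (hB : IsDesign 2 3 4 B) (T : Finset (Fin 7))
    (hT : T.card = 2) : ((range 35).filter (fun t => T ⊆ tr t ∧ tr t ∉ B)).card = 1 := by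
  have h1 := hB.2 T hT
  rw [filter_card B hB.1] at h1
  have h2 := card_filter_add_card_filter_not (s := (range 35).filter (fun t => T ⊆ tr t))
    (fun t => tr t ∈ B)
  rw [five T hT, filter_filter, filter_filter, h1] at h2
  omega

theorem classify (B : Finset (Finset (Fin 7))) (hB : IsDesign 2 3 4 B) :
    ∃ m ∈ m0 :: EM, B = des m := by
  have hb : ∀ t s, (t < 35 ∧ tr t ∉ B) → (s < 35 ∧ tr s ∉ B) → (cf t).testBit s = false := by
    rintro t s ⟨ht, ht'⟩ ⟨hs, hs'⟩
    by_contra hc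
    obtain ⟨hne, h2⟩ := cf_fact t ht s hs (by simpa using hc)
    obtain ⟨a, ha⟩ := card_eq_one.1 (one_out B hB _ h2)
    have h3 : t ∈ ({a} : Finset ℕ) := by
      rw [← ha]; exact mem_filter.2 ⟨mem_range.2 ht, inter_subset_left, ht'⟩
    have h4 : s ∈ ({a} : Finset ℕ) := by
      rw [← ha]; exact mem_filter.2 ⟨mem_range.2 hs, inter_subset_right, hs'⟩
    exact hne ((mem_singleton.1 h3).trans (mem_singleton.1 h4).symm)
  obtain ⟨m, hm, hsub⟩ := go_sound (fun t => t < 35 ∧ tr t ∉ B) hb inc 0 (by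
    intro L hL
    obtain ⟨T, hT, hTL⟩ := inc_fact L hL
    obtain ⟨a, ha⟩ := card_eq_one.1 (one_out B hB T hT)
    have h3 : a ∈ (range 35).filter (fun t => T ⊆ tr t ∧ tr t ∉ B) := by
      rw [ha]; exact mem_singleton_self a
    obtain ⟨h4, h5, h6⟩ := mem_filter.1 h3
    exact ⟨a, hTL a (mem_range.1 h4) h5, mem_range.1 h4, h6⟩) (by simp) go_true
  refine ⟨m, hm, ?_⟩
  rw [← blk_ind B hB.1, ← blk_ind (des m) (des_card m)]
  congr 1
  apply filter_congr
  intro t ht
  have ht' : t < 35 := mem_range.1 ht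
  rw [mem_des m t ht']
  constructor
  · intro h
    by_contra hc
    exact (hsub t (by simpa using hc)).2 h
  · intro h
    by_contra hc
    rcases max_fact m hm t ht' with h1 | ⟨s, _, h1, h2⟩
    · rw [h] at h1; exact Bool.false_ne_true h1
    · rw [hb t s ⟨ht', hc⟩ (hsub s h1)] at h2
      exact Bool.false_ne_true h2

theorem des_ne (j : ℕ) (hj : j < 29) : des (ed j) ≠ des m0 := by
  intro h
  obtain ⟨t, ht, h1, h2⟩ := ne_fact j hj
  have h3 := (mem_des _ t ht).2 h2
  rw [h, mem_des _ t ht, h1] at h3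
  exact Bool.noConfusion h3

theorem sub_des (S : Finset (Finset (Fin 7))) (hS : ∀ b ∈ S, b.card = 3) (m : ℕ) :
    S ⊆ des m ↔ ∀ t ∈ ind S, m.testBit t = false := by
  constructor
  · intro h t ht
    exact (mem_des m t (ind_lt S t ht)).1 (h (mem_filter.1 ht).2)
  · intro h b hb
    obtain ⟨t, ht, rfl⟩ := tr_surj b (hS b hb)
    exact (mem_des m t ht).2 (h t (mem_filter.2 ⟨mem_range.2 ht, hb⟩))

theorem defining_iff (S : Finset (Finset (Fin 7))) (hS : S ⊆ des m0) :
    IsDefining 2 3 4 (des m0) S ↔ ∀ j < 29, ∃ t ∈ ind S, (ed j).testBit t = true := by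
  have h3 : ∀ b ∈ S, b.card = 3 := fun b hb => des_card m0 b (hS hb)
  constructor
  · intro h j hj
    by_contra hc
    push Not at hc
    exact des_ne j hj (h.2 _ (des_design _ (ed_mem j hj))
      ((sub_des S h3 _).2 (fun t ht => by simpa using hc t ht)))
  · intro h
    refine ⟨hS, fun B hB hSB => ?_⟩
    obtain ⟨m, hm, rfl⟩ := classify B hB
    rcases List.mem_cons.1 hm with rfl | hm
    · rfl
    · obtain ⟨j, hj, rfl⟩ := EM_fact m hm
      obtain ⟨t, ht, h1⟩ := h j hj
      rw [(sub_des S h3 _).1 hSB t ht] at h1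
      exact absurd h1 Bool.false_ne_true

theorem spec_sub (n : ℕ) (h : n ∈ Spec 2 3 4 (des m0)) : n ∈ [7, 8, 9, 10, 13] := by
  obtain ⟨S, ⟨hd, hmin⟩, rfl⟩ := h
  have hS := hd.1
  have h3 : ∀ b ∈ S, b.card = 3 := fun b hb => des_card m0 b (hS hb)
  rw [← blk_ind S h3, card_blk _ (ind_lt S)]
  refine card_mem _ ((defining_iff S hS).1 hd) ?_ ?_
  · intro t ht
    have htS : tr t ∈ S := (mem_filter.1 ht).2
    have h1 := hmin (S.erase (tr t)) (erase_ssubset htS)
    rw [defining_iff _ ((erase_subset _ _).trans hS)] at h1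
    push Not at h1
    obtain ⟨j, hj, h2⟩ := h1
    refine ⟨j, hj, fun s hs hsj => ?_⟩
    by_contra hne
    refine h2 s (mem_filter.2 ⟨(mem_filter.1 hs).1, mem_erase.2 ⟨?_, (mem_filter.1 hs).2⟩⟩) hsj
    exact fun h => hne (tr_inj s (ind_lt S s hs) t (ind_lt S t ht) h)
  · intro t ht
    exact ⟨ind_lt S t ht, (sub_des S h3 m0).1 hS t ht⟩

theorem mem_spec (A : Finset ℕ) (H1 : ∀ j < 29, ∃ t ∈ A, (ed j).testBit t = true)
    (H2 : ∀ t ∈ A, ∃ j < 29, ∀ s ∈ A, (ed j).testBit s = true → s = t)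
    (H3 : ∀ t ∈ A, t < 35 ∧ m0.testBit t = false) : A.card ∈ Spec 2 3 4 (des m0) := by
  have hlt : ∀ t ∈ A, t < 35 := fun t ht => (H3 t ht).1
  have hind : ind (blk A) = A := by
    ext t
    simp only [ind, mem_filter, mem_range]
    constructor
    · rintro ⟨h1, h2⟩
      exact (mem_blk A hlt t h1).1 h2
    · intro h
      exact ⟨hlt t h, (mem_blk A hlt t (hlt t h)).2 h⟩
  have hS : blk A ⊆ des m0 := by
    intro b hb
    obtain ⟨t, ht, rfl⟩ := mem_image.1 hb
    exact (mem_des m0 t (hlt t ht)).2 (H3 t ht).2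
  refine ⟨blk A, ⟨(defining_iff _ hS).2 (by rw [hind]; exact H1), ?_⟩, card_blk A hlt⟩
  intro S' hS' hd
  rw [defining_iff _ (hS'.subset.trans hS)] at hd
  obtain ⟨b, hb, hb'⟩ := exists_of_ssubset hS'
  obtain ⟨t, ht, rfl⟩ := mem_image.1 hb
  obtain ⟨j, hj, hpr⟩ := H2 t ht
  obtain ⟨s, hs, hsj⟩ := hd j hj
  have hs1 : tr s ∈ S' := (mem_filter.1 hs).2
  have hs2 : s ∈ A := (mem_blk A hlt s (ind_lt _ s hs)).1 (hS'.subset hs1)
  exact hb' (hpr s hs2 hsj ▸ hs1)

def bits (m : ℕ) : Finset ℕ := (range 35).filter (fun t => m.testBit t = true)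

theorem ex_fact : ∀ p ∈ [(7, 33839644672), (8, 14512292288), (9, 25249710472), (10, 25249747104),
    (13, 8069945524)], (bits p.2).card = p.1 ∧
    (∀ j < 29, ∃ t ∈ bits p.2, (ed j).testBit t = true) ∧
    (∀ t ∈ bits p.2, ∃ j < 29, ∀ s ∈ bits p.2, (ed j).testBit s = true → s = t) ∧
    (∀ t ∈ bits p.2, t < 35 ∧ m0.testBit t = false) := by decide +kernel

theorem main : IsDesign 2 3 4 (des m0) ∧ Spec 2 3 4 (des m0) = {7, 8, 9, 10, 13} := by
  refine ⟨des_design m0 List.mem_cons_self, ?_⟩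
  ext n
  constructor
  · intro h
    simpa using spec_sub n h
  · intro h
    have key : ∀ p ∈ [(7, 33839644672), (8, 14512292288), (9, 25249710472), (10, 25249747104),
        (13, 8069945524)], p.1 ∈ Spec 2 3 4 (des m0) := by
      intro p hp
      obtain ⟨h0, h1, h2, h3⟩ := ex_fact p hp
      exact h0 ▸ mem_spec _ h1 h2 h3
    simp only [Set.mem_insert_iff, Set.mem_singleton_iff] at h
    rcases h with rfl | rfl | rfl | rfl | rfl
    · exact key (7, 33839644672) (by simp)
    · exact key (8, 14512292288) (by simp)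
    · exact key (9, 25249710472) (by simp)
    · exact key (10, 25249747104) (by simp)
    · exact key (13, 8069945524) (by simp)

end Pool.Agent.H140Z.DS
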