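import Pool.Agent.H140Z.DS.Data

set_option autoImplicit false

namespace Pool.Agent.H140Z.DS

theorem p0 : srch k0 (EL.drop 2) [(10, 285753474), (21, 50466945)] 319443075 16777344 0 = true := by decide +kernel

theorem p1 : srch k0 (EL.drop 2) [(13, 35685506), (21, 50466945)] 52597891 33554560 1024 = true := by decide +kernel

theorem p2 : srch k0 (EL.drop 2) [(19, 201883906), (21, 50466945)] 252350851 0 9216 = true := by decide +kernel

theorem p3 : srch k0 (EL.drop 2) [(24, 12600578), (21, 50466945)] 63067523 0 533504 = true := by decide +kernel

theorem p4 : srch k0 (EL.drop 2) [(10, 285753474), (22, 271581825)] 288899715 268435584 2097152 = true := by decide +kernel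

theorem p5 : srch k0 (EL.drop 2) [(13, 35685506), (22, 271581825)] 305170051 2097280 2098176 = true := by decide +kernel

end Pool.Agent.H140Z.DS
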