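import Pool.Agent.H140Z.DS.Data

set_option autoImplicit false

namespace Pool.Agent.H140Z.DS

theorem p6 : srch k0 (EL.drop 2) [(19, 201883906), (22, 271581825)] 473465731 0 2106368 = true := by decide +kernel

theorem p7 : srch k0 (EL.drop 2) [(24, 12600578), (22, 271581825)] 284182403 0 2630656 = true := by decide +kernel

theorem p8 : srch k0 (EL.drop 2) [(10, 285753474), (26, 71435009)] 357188483 0 6291456 = true := by decide +kernel

theorem p9 : srch k0 (EL.drop 2) [(13, 35685506), (26, 71435009)] 107120515 0 6292480 = true := by decide +kernel

theorem p10 : srch k0 (EL.drop 2) [(19, 201883906), (26, 71435009)] 206209795 67109120 6300672 = true := by decide +kernel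

theorem p11 : srch k0 (EL.drop 2) [(24, 12600578), (26, 71435009)] 79841027 4194560 6824960 = true := by decide +kernel

theorem p12 : srch k0 (EL.drop 2) [(10, 285753474), (29, 143659265)] 429412739 0 73400320 = true := by decide +kernel

theorem p13 : srch k0 (EL.drop 2) [(13, 35685506), (29, 143659265)] 179344771 0 73401344 = true := by decide +kernel

theorem p14 : srch k0 (EL.drop 2) [(19, 201883906), (29, 143659265)] 211325187 134217984 73409536 = true := by decide +kernel

theorem p15 : srch k0 (EL.drop 2) [(24, 12600578), (29, 143659265)] 147870979 8388864 73933824 = true := by decide +kernel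

end Pool.Agent.H140Z.DS
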