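import Pool.Agent.H140Z.DS.Top

set_option autoImplicit false

namespace Pool.Agent.H140Z.DS

def ed (j : ℕ) : ℕ := EM.getD j 0

def Good (p : ℕ × ℕ) : Prop := ∀ j < 29, p.2.testBit j = (ed j).testBit p.1

theorem EL_1 : ∀ e ∈ EL, e.1 < 29 ∧
    ∀ t < 35, (ed e.1).testBit t = true → m0.testBit t = false → ∃ p ∈ e.2, p.1 = t := by
  decide +kernel

theorem EL_2 : ∀ e ∈ EL, ∀ p ∈ e.2, (ed e.1).testBit p.1 = true ∧
    ∀ j < 29, p.2.testBit j = (ed j).testBit p.1 := by
  decide +kernel

theorem EL_3 : ∀ j < 29, ∃ e ∈ EL, e.1 = j := by decide +kernel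

theorem lor_bit (a b j : ℕ) : (Nat.lor a b).testBit j = (a.testBit j || b.testBit j) :=
  Nat.testBit_or a b j

theorem land_bit (a b j : ℕ) : (Nat.land a b).testBit j = (a.testBit j && b.testBit j) :=
  Nat.testBit_and a b j

theorem br_sound (A : Finset ℕ) (k : List (ℕ × ℕ) → ℕ → ℕ → ℕ → Bool) (L : List (ℕ × ℕ))
    (hit two : ℕ) : ∀ (xs : List (ℕ × ℕ)) (O : ℕ), (∃ p ∈ xs, p.1 ∈ A) →
      (∀ t, O.testBit t = true → t ∉ A) → br k L hit two xs O = true →
      ∃ p ∈ xs, ∃ O' : ℕ, p.1 ∈ A ∧ (∀ t, O'.testBit t = true → t ∉ A) ∧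
        (priv (Nat.lor two (Nat.land hit p.2)) L = true →
          k (p :: L) (Nat.lor hit p.2) (Nat.lor two (Nat.land hit p.2)) O' = true)
  | [], _ => by simp
  | q :: xs, O => by
    intro hex hO h
    simp only [br, force_eq, Bool.and_eq_true, Bool.or_eq_true] at h
    obtain ⟨h1, h2⟩ := h
    by_cases hq : q.1 ∈ A
    · refine ⟨q, List.mem_cons_self, O, hq, hO, fun hp => ?_⟩
      rcases h1 with h1 | h1 | h1
      · exact absurd hq (hO _ h1)
      · rw [hp] at h1
        exact absurd h1 (by decide)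
      · exact h1
    · have hex' : ∃ p ∈ xs, p.1 ∈ A := by
        obtain ⟨p, hp, hpA⟩ := hex
        rcases List.mem_cons.1 hp with rfl | hp
        · exact absurd hpA hq
        · exact ⟨p, hp, hpA⟩
      have hO' : ∀ t, (Nat.lor O (2 ^ q.1)).testBit t = true → t ∉ A := by
        intro t ht
        rw [lor_bit, Bool.or_eq_true] at ht
        rcases ht with ht | ht
        · exact hO t ht
        · rw [Nat.testBit_two_pow] at ht
          have : q.1 = t := by simpa using ht
          exact this ▸ hq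
      obtain ⟨p, hp, O', h3⟩ := br_sound A k L hit two xs _ hex' hO' h2
      exact ⟨p, List.mem_cons_of_mem _ hp, O', h3⟩

theorem priv_sound (A : Finset ℕ) (H1 : ∀ j < 29, ∃ t ∈ A, (ed j).testBit t = true)
    (H2 : ∀ t ∈ A, ∃ j < 29, ∀ s ∈ A, (ed j).testBit s = true → s = t) (two : ℕ)
    (h2 : ∀ j < 29, two.testBit j = true →
      ∃ s ∈ A, ∃ t ∈ A, s ≠ t ∧ (ed j).testBit s = true ∧ (ed j).testBit t = true) :
    ∀ L : List (ℕ × ℕ), (∀ p ∈ L, p.1 ∈ A ∧ Good p) → priv two L = true
  | [], _ => rfl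
  | p :: L, h => by
    simp only [priv, Bool.and_eq_true]
    refine ⟨?_, priv_sound A H1 H2 two h2 L (fun q hq => h q (List.mem_cons_of_mem _ hq))⟩
    obtain ⟨hA, hG⟩ := h p List.mem_cons_self
    obtain ⟨j, hj, hpr⟩ := H2 _ hA
    obtain ⟨s, hs, hsj⟩ := H1 j hj
    have hs' := hpr s hs hsj
    subst hs'
    have hb : p.2.testBit j = true := by rw [hG j hj]; exact hsj
    have hn : two.testBit j = false := by
      by_contra hc
      obtain ⟨a, ha, b, hb, hab, h3, h4⟩ := h2 j hj (by simpa using hc)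
      exact hab ((hpr a ha h3).trans (hpr b hb h4).symm)
    cases hbe : Nat.beq (Nat.land p.2 two) p.2
    · rfl
    · have := Nat.eq_of_beq_eq_true hbe
      have h5 := congrArg (fun n => Nat.testBit n j) this
      simp only [land_bit, hb, hn] at h5
      simp at h5

theorem srch_sound (A : Finset ℕ) (H1 : ∀ j < 29, ∃ t ∈ A, (ed j).testBit t = true)
    (H2 : ∀ t ∈ A, ∃ j < 29, ∀ s ∈ A, (ed j).testBit s = true → s = t)
    (H3 : ∀ t ∈ A, t < 35 ∧ m0.testBit t = false) :
    ∀ (es : List (ℕ × List (ℕ × ℕ))) (L : List (ℕ × ℕ)) (hit two O : ℕ),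
      (∀ e ∈ es, e ∈ EL) → (∀ p ∈ L, p.1 ∈ A ∧ Good p) → (L.map Prod.fst).Nodup →
      (∀ j < 29, hit.testBit j = true ↔ ∃ p ∈ L, (ed j).testBit p.1 = true) →
      (∀ j < 29, two.testBit j = true →
        ∃ s ∈ A, ∃ t ∈ A, s ≠ t ∧ (ed j).testBit s = true ∧ (ed j).testBit t = true) →
      (∀ t, O.testBit t = true → t ∉ A) →
      (∀ j < 29, hit.testBit j = true ∨ ∃ e ∈ es, e.1 = j) →
      srch k0 es L hit two O = true → A.card ∈ [7, 8, 9, 10, 13]
  | [], L, hit, two, O => by
    intro _ hL hnd hhit _ _ hcov h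
    have hA : A = (L.map Prod.fst).toFinset := by
      ext t
      simp only [List.mem_toFinset, List.mem_map]
      constructor
      · intro ht
        obtain ⟨j, hj, hpr⟩ := H2 t ht
        rcases hcov j hj with h1 | ⟨e, he, _⟩
        · obtain ⟨p, hp, hpj⟩ := (hhit j hj).1 h1
          exact ⟨p, hp, hpr _ (hL p hp).1 hpj⟩
        · simp at he
      · rintro ⟨p, hp, rfl⟩
        exact (hL p hp).1
    rw [hA, List.toFinset_card_of_nodup hnd, List.length_map]
    simpa [srch, k0, okc] using h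
  | e :: es, L, hit, two, O => by
    intro hes hL hnd hhit htwo hO hcov h
    have hes' : ∀ e ∈ es, e ∈ EL := fun f hf => hes f (List.mem_cons_of_mem _ hf)
    have he := hes e List.mem_cons_self
    simp only [srch] at h
    cases hb : hit.testBit e.1
    · rw [hb] at h
      simp only [cond_false] at h
      obtain ⟨he1, he2⟩ := EL_1 e he
      obtain ⟨t, ht, htj⟩ := H1 e.1 he1
      obtain ⟨p0, hp0, hp0t⟩ := he2 t (H3 t ht).1 htj (H3 t ht).2
      obtain ⟨p, hp, O', hpA, hO', hk⟩ := br_sound A _ L hit two e.2 O ⟨p0, hp0, hp0t ▸ ht⟩ hO h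
      obtain ⟨hpe, hpG⟩ := EL_2 e he p hp
      have hnew : ∀ q ∈ L, q.1 ≠ p.1 := by
        intro q hq hqp
        have := (hhit e.1 he1).2 ⟨q, hq, hqp ▸ hpe⟩
        rw [hb] at this
        exact Bool.false_ne_true this
      have htwo' : ∀ j < 29, (Nat.lor two (Nat.land hit p.2)).testBit j = true →
          ∃ s ∈ A, ∃ t ∈ A, s ≠ t ∧ (ed j).testBit s = true ∧ (ed j).testBit t = true := by
        intro j hj h1
        rw [lor_bit, land_bit, Bool.or_eq_true, Bool.and_eq_true] at h1
        rcases h1 with h1 | ⟨h1, h2⟩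
        · exact htwo j hj h1
        · obtain ⟨q, hq, hqj⟩ := (hhit j hj).1 h1
          exact ⟨q.1, (hL q hq).1, p.1, hpA, hnew q hq, hqj, by rw [← hpG j hj]; exact h2⟩
      refine srch_sound A H1 H2 H3 es (p :: L) _ _ O' hes' ?_ ?_ ?_ htwo' hO' ?_
        (hk (priv_sound A H1 H2 _ htwo' L hL))
      · intro q hq
        rcases List.mem_cons.1 hq with rfl | hq
        · exact ⟨hpA, hpG⟩
        · exact hL q hq
      · rw [List.map_cons, List.nodup_cons]
        refine ⟨?_, hnd⟩
        intro hc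
        obtain ⟨q, hq, hqp⟩ := List.mem_map.1 hc
        exact hnew q hq hqp
      · intro j hj
        rw [lor_bit, Bool.or_eq_true, hhit j hj, hpG j hj]
        constructor
        · rintro (⟨q, hq, h1⟩ | h1)
          · exact ⟨q, List.mem_cons_of_mem _ hq, h1⟩
          · exact ⟨p, List.mem_cons_self, h1⟩
        · rintro ⟨q, hq, h1⟩
          rcases List.mem_cons.1 hq with rfl | hq
          · exact Or.inr h1
          · exact Or.inl ⟨q, hq, h1⟩
      · intro j hj
        rw [lor_bit, Bool.or_eq_true]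
        rcases hcov j hj with h1 | ⟨f, hf, h1⟩
        · exact Or.inl (Or.inl h1)
        · rcases List.mem_cons.1 hf with rfl | hf
          · subst h1
            exact Or.inl (Or.inr (by rw [hpG _ hj]; exact hpe))
          · exact Or.inr ⟨f, hf, h1⟩
    · rw [hb] at h
      simp only [cond_true] at h
      refine srch_sound A H1 H2 H3 es L hit two O hes' hL hnd hhit htwo hO ?_ h
      intro j hj
      rcases hcov j hj with h1 | ⟨f, hf, h1⟩
      · exact Or.inl h1
      · rcases List.mem_cons.1 hf with rfl | hf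
        · subst h1
          exact Or.inl hb
        · exact Or.inr ⟨f, hf, h1⟩

theorem card_mem (A : Finset ℕ) (H1 : ∀ j < 29, ∃ t ∈ A, (ed j).testBit t = true)
    (H2 : ∀ t ∈ A, ∃ j < 29, ∀ s ∈ A, (ed j).testBit s = true → s = t)
    (H3 : ∀ t ∈ A, t < 35 ∧ m0.testBit t = false) : A.card ∈ [7, 8, 9, 10, 13] := by
  refine srch_sound A H1 H2 H3 EL [] 0 0 0 (fun _ h => h) (by simp) (by simp) (by simp) (by simp)
    (by simp) (fun j hj => Or.inr (EL_3 j hj)) srch_true

theorem go_sound (C : ℕ → Prop) (hb : ∀ t s, C t → C s → (cf t).testBit s = false) :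
    ∀ (Ls : List (List ℕ)) (m : ℕ), (∀ L ∈ Ls, ∃ t ∈ L, C t) → (∀ i, m.testBit i = true → C i) →
      go Ls m = true → ∃ m' ∈ m0 :: EM, ∀ i, m'.testBit i = true → C i
  | [], m => by
    intro _ hm h
    exact ⟨m, by simpa [go] using h, hm⟩
  | L :: Ls, m => by
    intro hL hm h
    have hL' : ∀ L ∈ Ls, ∃ t ∈ L, C t := fun K hK => hL K (List.mem_cons_of_mem _ hK)
    simp only [go] at h
    split_ifs at h with h1
    · exact go_sound C hb Ls m hL' hm h
    · obtain ⟨t, ht, hC⟩ := hL L List.mem_cons_self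
      have h2 := List.all_eq_true.1 h t ht
      have h0 : Nat.land m (cf t) = 0 := by
        apply Nat.eq_of_testBit_eq
        intro i
        rw [land_bit, Nat.zero_testBit]
        cases hi : m.testBit i
        · rfl
        · rw [hb t i hC (hm i hi)]; rfl
      rw [h0] at h2
      have h3 : go Ls (Nat.lor m (2 ^ t)) = true := by simpa using h2
      refine go_sound C hb Ls _ hL' ?_ h3
      intro i hi
      rw [lor_bit, Bool.or_eq_true] at hi
      rcases hi with hi | hi
      · exact hm i hi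
      · rw [Nat.testBit_two_pow] at hi
        have : t = i := by simpa using hi
        exact this ▸ hC

end Pool.Agent.H140Z.DS
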