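import Pool.Agent.H140Z.DS.P1
import Pool.Agent.H140Z.DS.P2

set_option autoImplicit false

namespace Pool.Agent.H140Z.DS

theorem force_eq (n : ℕ) (f : ℕ → Bool) : force n f = f n := by
  cases n <;> rfl

theorem br_mono (k k' : List (ℕ × ℕ) → ℕ → ℕ → ℕ → Bool)
    (h : ∀ L a b c, k L a b c = true → k' L a b c = true) (L : List (ℕ × ℕ)) (hit two : ℕ) :
    ∀ (xs : List (ℕ × ℕ)) (O : ℕ), br k L hit two xs O = true → br k' L hit two xs O = true
  | [], _ => fun _ => rfl
  | p :: xs, O => by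
    simp only [br, force_eq, Bool.and_eq_true, Bool.or_eq_true]
    rintro ⟨h1, h2⟩
    refine ⟨?_, br_mono k k' h L hit two xs _ h2⟩
    rcases h1 with h1 | h1 | h1
    · exact Or.inl h1
    · exact Or.inr (Or.inl h1)
    · exact Or.inr (Or.inr (h _ _ _ _ h1))

theorem srch_mono (k k' : List (ℕ × ℕ) → ℕ → ℕ → ℕ → Bool)
    (h : ∀ L a b c, k L a b c = true → k' L a b c = true) :
    ∀ (es : List (ℕ × List (ℕ × ℕ))) (L : List (ℕ × ℕ)) (a b c : ℕ),
      srch k es L a b c = true → srch k' es L a b c = true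
  | [], L, a, b, c => h L a b c
  | e :: es, L, a, b, c => by
    simp only [srch]
    cases a.testBit e.1
    · exact br_mono _ _ (fun L' a' b' c' => srch_mono k k' h es L' a' b' c') L a b e.2 c
    · exact srch_mono k k' h es L a b c

theorem srch_append (k : List (ℕ × ℕ) → ℕ → ℕ → ℕ → Bool) (es2 : List (ℕ × List (ℕ × ℕ))) :
    ∀ (es : List (ℕ × List (ℕ × ℕ))) (L : List (ℕ × ℕ)) (a b c : ℕ),
      srch k (es ++ es2) L a b c = srch (srch k es2) es L a b c
  | [], _, _, _, _ => rfl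
  | e :: es, L, a, b, c => by
    simp only [List.cons_append, srch]
    rw [srch_append k es2 es L a b c]
    congr 2
    funext L' a' b' c'
    exact srch_append k es2 es L' a' b' c'

def st : List (List (ℕ × ℕ) × ℕ × ℕ × ℕ) := [([(10, 285753474), (21, 50466945)], 319443075, 16777344, 0), ([(13, 35685506), (21, 50466945)], 52597891, 33554560, 1024), ([(19, 201883906), (21, 50466945)], 252350851, 0, 9216), ([(24, 12600578), (21, 50466945)], 63067523, 0, 533504), ([(10, 285753474), (22, 271581825)], 288899715, 268435584, 2097152), ([(13, 35685506), (22, 271581825)], 305170051, 2097280, 2098176), ([(19, 201883906), (22, 271581825)], 473465731, 0, 2106368), ([(24, 12600578), (22, 271581825)], 284182403, 0, 2630656), ([(10, 285753474), (26, 71435009)], 357188483, 0, 6291456), ([(13, 35685506), (26, 71435009)], 107120515, 0, 6292480), ([(19, 201883906), (26, 71435009)], 206209795, 67109120, 6300672), ([(24, 12600578), (26, 71435009)], 79841027, 4194560, 6824960),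 ([(10, 285753474), (29, 143659265)], 429412739, 0, 73400320), ([(13, 35685506), (29, 143659265)], 179344771, 0, 73401344), ([(19, 201883906), (29, 143659265)], 211325187, 134217984, 73409536), ([(24, 12600578), (29, 143659265)], 147870979, 8388864, 73933824)]

theorem top : srch (fun L a b c => decide ((L, a, b, c) ∈ st)) (EL.take 2) [] 0 0 0 = true := by
  decide +kernel

theorem srch_true : srch k0 EL [] 0 0 0 = true := by
  rw [← List.take_append_drop 2 EL, srch_append]
  refine srch_mono _ _ ?_ _ _ _ _ _ top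
  intro L a b c h
  have h' := of_decide_eq_true h
  simp only [st, List.mem_cons, Prod.mk.injEq, List.not_mem_nil, or_false] at h'
  rcases h' with ⟨rfl, rfl, rfl, rfl⟩ | ⟨rfl, rfl, rfl, rfl⟩ | ⟨rfl, rfl, rfl, rfl⟩ | ⟨rfl, rfl, rfl, rfl⟩ | ⟨rfl, rfl, rfl, rfl⟩ | ⟨rfl, rfl, rfl, rfl⟩ | ⟨rfl, rfl, rfl, rfl⟩ | ⟨rfl, rfl, rfl, rfl⟩ | ⟨rfl, rfl, rfl, rfl⟩ | ⟨rfl, rfl, rfl, rfl⟩ | ⟨rfl, rfl, rfl, rfl⟩ | ⟨rfl, rfl, rfl, rfl⟩ | ⟨rfl, rfl, rfl, rfl⟩ | ⟨rfl, rfl, rfl, rfl⟩ | ⟨rfl, rfl, rfl, rfl⟩ | ⟨rfl, rfl, rfl, rfl⟩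
  · exact p0
  · exact p1
  · exact p2
  · exact p3
  · exact p4
  · exact p5
  · exact p6
  · exact p7
  · exact p8
  · exact p9
  · exact p10
  · exact p11
  · exact p12
  · exact p13
  · exact p14
  · exact p15

end Pool.Agent.H140Z.DS
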